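import Pool.Agent.Work.MP_dd0d16_nt.G.Final3

set_option autoImplicit false

namespace Pool.Agent.Results.MP_dd0d16_nt.Cyclotomic

open Pool.Agent.Work.MP_dd0d16_nt Pool.Agent.Work.MP_dd0d16_nt.T

/-- The p-adic strong four exponentials conjecture for logarithms of combinations of boundedly many
roots of unity, up to the logarithms of subsums of bounded order. -/
theorem result (p : ℕ) [Fact p.Prime] (L : PadicAlgCl p → PadicAlgCl p) (hL : IsLog L)
    (K1 : IntermediateField ℚ_[p] (PadicAlgCl p)) [FiniteDimensional ℚ_[p] K1] (n B : ℕ) :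
    ∃ N : ℕ, ∀ (s : ℕ) (K : IntermediateField ℚ_[p] (PadicAlgCl p)),
      Module.rank ℚ_[p] ↥(K ⊓ Cyc p s) ≤ B →
      ∀ (t z : Fin n → Fin B → PadicAlgCl p) (a : Fin 2 → Fin 2 → PadicAlgCl p)
        (c : Fin 2 → Fin 2 → Fin n → PadicAlgCl p), (∀ k j, t k j ∈ K1 ∧ RootS s (z k j)) →
        (∀ k, ∑ j, t k j * z k j ≠ 0) → (∀ i j, IsAlgebraic ℚ (a i j) ∧ AlgS s K B (a i j)) →
        (∀ i j k, IsAlgebraic ℚ (c i j k) ∧ AlgS s K B (c i j k)) →
        FourExp (Matrix.of fun i j => a i j + ∑ k, c i j k * L (∑ l, t k l * z k l)) ∨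
          ∀ i j, a i j + ∑ k, c i j k * L (∑ l, t k l * z k l) ∈
            Submodule.span (algebraicClosure ℚ (PadicAlgCl p)) (insert 1 (L '' Clus N t z)) :=
  final3 hL K1 n B

end Pool.Agent.Results.MP_dd0d16_nt.Cyclotomic
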