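import Pool.Agent.Work.MP_dd0d16_nt.E.FinalE

set_option autoImplicit false

namespace Pool.Agent.Results.MP_dd0d16_nt.Elliptic

open Pool.Agent.Work.MP_dd0d16_nt Pool.Agent.Work.MP_dd0d16_nt.T

/-- The p-adic strong four exponentials conjecture for logarithms of values of polynomials at
abscissae of generic torsion points of an elliptic curve with good reduction, up to the logarithms
of the leading coefficients. -/
theorem result (p : ℕ) [Fact p.Prime] (hp : p ≠ 2) (L : PadicAlgCl p → PadicAlgCl p)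
    (hL : IsLog L) (m n B : ℕ) :
    ∃ N : ℕ, ∀ (K2 K : IntermediateField ℚ_[p] (PadicAlgCl p))
      (W : WeierstrassCurve (PadicAlgCl p)) (z : Fin m → PadicAlgCl p)
      (f : Fin n → MvPolynomial (Fin m) (PadicAlgCl p)) (a : Fin 2 → Fin 2 → PadicAlgCl p)
      (c : Fin 2 → Fin 2 → Fin n → PadicAlgCl p), K2 ≤ K → RamLe K2 B → Good K W →
      (∀ d, Tors W N (z d)) → GenZ K N z → (∀ k, f k ≠ 0 ∧ PolK K2 B (f k)) →
      (∀ i j, IsAlgebraic ℚ (a i j) ∧ AlgZ K B z (a i j)) →
      (∀ i j k, IsAlgebraic ℚ (c i j k) ∧ AlgZ K B z (c i j k)) →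
      FourExp (Matrix.of fun i j => a i j + ∑ k, c i j k * L (MvPolynomial.eval z (f k))) ∨
        ∀ i j, a i j + ∑ k, c i j k * L (MvPolynomial.eval z (f k)) ∈
          Submodule.span (algebraicClosure ℚ (PadicAlgCl p))
            (insert 1 (Set.range fun k => L (MonomialOrder.lex.leadingCoeff (f k)))) :=
  finalE hp hL m n B

end Pool.Agent.Results.MP_dd0d16_nt.Elliptic
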