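import Pool.Agent.Work.MP_dd0d16_nt.PAdic

set_option autoImplicit false

namespace Pool.Agent.Results.MP_dd0d16_nt.SmallLogs

open Pool.Agent.Work.MP_dd0d16_nt

/-- The p-adic strong four exponentials conjecture for logarithms that are smaller than a fixed
negative power of the height, uniformly in `p` for principal units. -/
theorem result (n d C : ℕ) : ∃ η : ℝ, 0 < η ∧ ∀ (p : ℕ) [Fact p.Prime]
    (L : PadicAlgCl p → PadicAlgCl p), IsLog L → ∀ (H : ℕ) (x : Fin n → PadicAlgCl p)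
    (a : Fin 2 → Fin 2 → PadicAlgCl p) (c : Fin 2 → Fin 2 → Fin n → PadicAlgCl p),
    (∀ k, x k ≠ 0 ∧ Bdd d H (x k)) → (∀ i j, Bdd d H (a i j)) → (∀ i j k, Bdd d H (c i j k)) →
    (∀ k, ‖L (x k)‖ ≤ η ∧ ‖L (x k)‖ ^ C * H ≤ 1 ∧ (p ≤ C ∨ ‖x k - 1‖ < 1)) →
    FourExp (Matrix.of fun i j => a i j + ∑ k, c i j k * L (x k)) := by
  obtain ⟨η, h0, h⟩ := main_C n d C
  exact ⟨η, h0, fun p _ L hL H x a c hx ha hc hs =>
    (h p L H x hL fun k => ⟨(hx k).1, (hx k).2, hs k⟩).1 a c ha hc⟩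

end Pool.Agent.Results.MP_dd0d16_nt.SmallLogs
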