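import Pool.Agent.Work.MP_dd0d16_nt.W.Final

set_option autoImplicit false

namespace Pool.Agent.Results.MP_dd0d16_nt.Towers

open Pool.Agent.Work.MP_dd0d16_nt Pool.Agent.Work.MP_dd0d16_nt.W

/-- The p-adic strong four exponentials conjecture for logarithms of norm-compatible systems of
algebraic numbers at all deep levels of a tower given by a lift of Frobenius. -/
theorem result (p : ℕ) [Fact p.Prime] (L : PadicAlgCl p → PadicAlgCl p) (hL : IsLog L)
    (U : IntermediateField ℚ_[p] (PadicAlgCl p)) (f : Polynomial (PadicAlgCl p))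
    (ξ : ℕ → PadicAlgCl p) (hξ : Tower U f ξ) (d : ℕ) (x : Fin d → ℕ → PadicAlgCl p)
    (hx : ∀ l, NormSys U ξ (x l)) :
    ∃ N : ℕ, ∀ m k, N ≤ m → N ≤ k → ∀ F : IntermediateField ℚ_[p] (PadicAlgCl p),
      Lev U ξ m ≤ F → (minpoly F (ξ (m + k))).natDegree = f.natDegree ^ k →
      ∀ (a : Fin 2 → Fin 2 → PadicAlgCl p) (c : Fin 2 → Fin 2 → Fin d → PadicAlgCl p),
        (∀ i j, a i j ∈ F) → (∀ i j l, c i j l ∈ F ∧ IsAlgebraic ℚ (c i j l)) →
        FourExp (Matrix.of fun i j => a i j + ∑ l, c i j l * L (x l (m + k))) ∨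
          ∀ i j, c i j ∈
            Submodule.span (algebraicClosure ℚ (PadicAlgCl p)) (Deg f.natDegree L x) :=
  final hL hξ d x hx

end Pool.Agent.Results.MP_dd0d16_nt.Towers
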